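import Pool.Agent.H98.Cubic.Main

/-!
# The cubic moment of Hardy's function (`MP_56c76e_nt`, Q1)

We prove `∫_0^T Z(t)^3 dt = O(T^{19/20 + ε})` for every `ε > 0`, where `Z` is Hardy's function.
-/

set_option autoImplicit false

namespace Pool.Agent.Results.MP_56c76e_nt.CubicMoment

/-- Hardy's function
`Z(t) = exp (i θ(t)) ζ(1/2 + i t)`, `exp (i θ(t)) = π^{-it/2} Γ(1/4 + it/2) / |Γ(1/4 + it/2)|`,
as a complex number (it is real). -/
noncomputable def hardyZ (t : ℝ) : ℂ :=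
  (Real.pi : ℂ) ^ (-(t * Complex.I) / 2) *
    (Complex.Gamma (1 / 4 + t * Complex.I / 2) / ‖Complex.Gamma (1 / 4 + t * Complex.I / 2)‖) *
    riemannZeta (1 / 2 + t * Complex.I)

theorem hardyZ_eq (t : ℝ) : hardyZ t = ((Pool.Agent.H98.Cubic.Z t : ℝ) : ℂ) := by
  have h := Pool.Agent.H58.Cubic.zreal.1 t
  rw [h]
  rfl

/-- The cubic moment of Hardy's function has a power saving. -/
theorem result : ∀ ε : ℝ, 0 < ε →
    (fun T : ℝ => ∫ t in (0 : ℝ)..T, hardyZ t ^ 3) =O[Filter.atTop]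
      fun T : ℝ => T ^ (19 / 20 + ε : ℝ) := by
  intro ε hε
  have h := Pool.Agent.H98.Cubic.final_all ε hε
  have e : (fun T : ℝ => ∫ t in (0 : ℝ)..T, hardyZ t ^ 3) =
      fun T : ℝ => (((∫ t in (0 : ℝ)..T, Pool.Agent.H98.Cubic.Z t ^ 3) : ℝ) : ℂ) := by
    funext T
    rw [← intervalIntegral.integral_ofReal]
    apply intervalIntegral.integral_congr
    intro t _
    simp only [hardyZ_eq]
    push_cast
    rfl
  rw [e]
  rw [Asymptotics.isBigO_iff] at h ⊢
  obtain ⟨c, hc⟩ := h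
  refine ⟨c, hc.mono fun T hT => ?_⟩
  rw [Complex.norm_real]
  exact hT

end Pool.Agent.Results.MP_56c76e_nt.CubicMoment
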